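import Pool.Agent.W901.RL.Stm

/-!
# Fair bets (part E1G of the project RL of helper901)
-/

set_option autoImplicit false

namespace Pool.Agent.W376.RL

open Finset Pool.Agent.NPC Pool.Agent.H579R2.Spt Pool.Agent.H251R5.PQ Pool.Agent.W901.AT
  Pool.Agent.W901.RL

theorem sumBL_succ {M : Type*} [AddCommMonoid M] (n : ℕ) (f : List Bool → M) :
    ∑ r ∈ BL (n + 1), f r = ∑ r ∈ BL n, (f (true :: r) + f (false :: r)) := by
  rw [BL_succ, Finset.sum_union, Finset.sum_image (by simp), Finset.sum_image (by simp),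
    Finset.sum_add_distrib]
  rw [Finset.disjoint_left]
  simp only [Finset.mem_image]
  rintro r ⟨a, _, rfl⟩ ⟨b, _, h⟩
  simp at h

theorem cardBL (n : ℕ) : (BL n).card = 2 ^ n := by exact_mod_cast card_BL n

theorem made_le (h : List (Option Bool)) : made h ≤ h.length := List.length_filter_le _ _

theorem pascal (s : ℕ) (F : ℕ → ℕ) :
    ∑ k ∈ range (s + 2), (s + 1).choose k * F k =
      ∑ k ∈ range (s + 1), s.choose k * (F k + F (k + 1)) := by
  rw [Finset.sum_range_succ']
  have e : ∀ k, (s + 1).choose (k + 1) * F (k + 1) =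
      s.choose k * F (k + 1) + s.choose (k + 1) * F (k + 1) := by
    intro k; rw [Nat.choose_succ_succ]; ring
  simp only [e, mul_add, Finset.sum_add_distrib]
  have e2 : ∑ k ∈ range (s + 1), s.choose k * F k =
      ∑ k ∈ range (s + 1), s.choose (k + 1) * F (k + 1) + F 0 := by
    rw [Finset.sum_range_succ', Finset.sum_range_succ (fun k => s.choose (k + 1) * F (k + 1))]
    simp
  rw [e2]
  simp
  ring

theorem binom (h : List (Option Bool)) : ∀ F : ℕ → ℕ,
    ∑ w ∈ BL h.length, F (right h w) =
      2 ^ (h.length - made h) * ∑ k ∈ range (made h + 1), (made h).choose k * F k := by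
  induction h with
  | nil => intro F; simp [right, made, BL_zero]
  | cons a h ih =>
    intro F
    have hm : made h ≤ h.length := made_le h
    rw [List.length_cons, sumBL_succ]
    cases a with
    | none =>
      have e1 : ∀ b w, right (none :: h) (b :: w) = right h w := by intro b w; simp [right]
      have e2 : made (none :: h) = made h := by simp [made]
      simp only [e1, e2]
      rw [Finset.sum_add_distrib, ih F, Nat.sub_add_comm hm, pow_succ]
      ring
    | some b =>
      have e2 : made (some b :: h) = made h + 1 := by simp [made]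
      have e1 : ∀ w, F (right (some b :: h) (true :: w)) + F (right (some b :: h) (false :: w)) =
          F (right h w) + F (right h w + 1) := by
        intro w
        cases b <;> simp [right, add_comm]
      simp only [e1, e2]
      have := ih (fun k => F k + F (k + 1))
      rw [this, pascal, Nat.add_sub_add_right]

theorem sum_le (h : List (Option Bool)) (c : ℕ) (F : ℕ → ℕ)
    (hF : ∑ k ∈ range (made h + 1), (made h).choose k * F k ≤ 2 ^ (made h) * c) :
    ∑ w ∈ BL h.length, F (right h w) ≤ 2 ^ h.length * c := by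
  rw [binom]
  calc 2 ^ (h.length - made h) * ∑ k ∈ range (made h + 1), (made h).choose k * F k
      ≤ 2 ^ (h.length - made h) * (2 ^ (made h) * c) := Nat.mul_le_mul_left _ hF
    _ = 2 ^ h.length * c := by
        rw [← mul_assoc, ← pow_add, Nat.sub_add_cancel (made_le h)]

theorem E1G : S_TW → S_MOM → S_E1G := by
  intro hTW hMOM p m j K Q B c t φ W hp hQ ht htj hφ hcB hfair hnd hlen hN
  classical
  rcases Nat.eq_zero_or_pos K with rfl | hK
  · simp
  set L := m * (p * p) with hL
  have hteven : Even t := ⟨m + K, by omega⟩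
  have htpos : 0 < t := by omega
  set bad : List (Option Bool) → Finset (List Bool) := fun h =>
    (BL L).filter (fun σ => ¬ 8 * Q * (W.map (fun u => φ (made h) (right h (row p m σ u)))).sum ≤
        (8 * Q * c + 1) * W.length) with hbad
  have main : ∀ h : List (Option Bool), h.length = m → (bad h).card * 4 ^ (m + K) ≤ 2 ^ L := by
    intro h hh
    rcases Nat.eq_zero_or_pos B with hB0 | hB
    · have : bad h = ∅ := by
        rw [hbad]
        apply Finset.filter_eq_empty_iff.mpr
        intro σ _
        have e : ∀ s k, φ s k = 0 := fun s k => by have := hφ s k; omega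
        simp [e]
      rw [this]; simp
    set s := made h with hs
    have hsm : s ≤ m := hh ▸ made_le h
    set Y : List Bool → ℝ := fun w => (φ s (right h w) : ℝ) with hY
    set μ : ℝ := (∑ w ∈ BL m, Y w) / 2 ^ m with hμ
    have h2m : (0 : ℝ) < 2 ^ m := by positivity
    have hY0 : ∀ w, 0 ≤ Y w := fun w => Nat.cast_nonneg _
    have hYB : ∀ w, Y w ≤ B := fun w => Nat.cast_le.mpr (hφ s _)
    have hμ0 : 0 ≤ μ := div_nonneg (Finset.sum_nonneg fun w _ => hY0 w) h2m.le
    have hμc : μ ≤ c := by
      rw [hμ, div_le_iff₀ h2m]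
      have h1 := sum_le h c (φ s) (hfair s hsm)
      rw [hh] at h1
      have h2 : ((∑ w ∈ BL m, φ s (right h w) : ℕ) : ℝ) ≤ ((2 ^ m * c : ℕ) : ℝ) := by
        exact_mod_cast h1
      push_cast at h2
      linarith [h2]
    have hcB' : (c : ℝ) ≤ B := by exact_mod_cast hcB
    have hmom := hMOM {σ // σ ∈ BL L} {u // u ∈ W.toFinset} inferInstance inferInstance
      inferInstance (fun i ω => Y (row p m ω.1 i.1) - μ) B t hteven (Nat.cast_nonneg _)
      (by
        intro i ω
        rw [abs_le]
        constructor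
        · linarith [hY0 (row p m ω.1 i.1)]
        · linarith [hYB (row p m ω.1 i.1)])
      (by
        rintro f ⟨a, ha⟩
        have h1 := hTW p m j t (fun l => (f l).1) a (fun _ w => Y w - μ) hp htj
          (fun l => hlen _ (List.mem_toFinset.mp (f l).2))
          (fun l hl hne => ha l hl (Subtype.ext hne))
          (by
            rw [Finset.sum_sub_distrib, Finset.sum_const, cardBL, nsmul_eq_mul, hμ]
            push_cast
            field_simp
            simp)
        rw [Finset.sum_coe_sort (BL L) (fun σ => ∏ l, (Y (row p m σ (f l).1) - μ))]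
        exact h1)
    rw [Finset.sum_coe_sort (BL L) (fun σ => (∑ i : {u // u ∈ W.toFinset},
      (Y (row p m σ i.1) - μ)) ^ t), Fintype.card_coe, Fintype.card_coe, cardBL,
      List.toFinset_card_of_nodup hnd] at hmom
    have hsum : ∀ σ, ∑ i : {u // u ∈ W.toFinset}, (Y (row p m σ i.1) - μ) =
        (((W.map (fun u => φ s (right h (row p m σ u)))).sum : ℕ) : ℝ) - W.length * μ := by
      intro σ
      rw [Finset.sum_coe_sort W.toFinset (fun u => Y (row p m σ u) - μ),
        Finset.sum_sub_distrib, Finset.sum_const, List.toFinset_card_of_nodup hnd, nsmul_eq_mul,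
        List.sum_toFinset _ hnd]
      congr 1
      rw [Nat.cast_list_sum, List.map_map]
      rfl
    have hQ' : (0 : ℝ) < 8 * Q := by positivity
    have hW0 : (0 : ℝ) ≤ W.length := Nat.cast_nonneg _
    have hlow : ∀ σ ∈ bad h, ((W.length : ℝ) / (8 * Q)) ^ t ≤
        (∑ i : {u // u ∈ W.toFinset}, (Y (row p m σ i.1) - μ)) ^ t := by
      intro σ hσ
      apply pow_le_pow_left₀ (div_nonneg hW0 hQ'.le)
      rw [hsum]
      have h1 := (Finset.mem_filter.mp hσ).2
      push Not at h1
      have h2 : (((8 * Q * c + 1) * W.length : ℕ) : ℝ) <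
          ((8 * Q * (W.map (fun u => φ s (right h (row p m σ u)))).sum : ℕ) : ℝ) := by
        exact_mod_cast h1
      push_cast at h2
      rw [div_le_iff₀ hQ']
      push_cast
      have h3 : (W.length : ℝ) * μ * (8 * Q) ≤ W.length * c * (8 * Q) := by
        apply mul_le_mul_of_nonneg_right _ hQ'.le
        exact mul_le_mul_of_nonneg_left hμc hW0
      nlinarith [h2, h3]
    have hmark : ((bad h).card : ℝ) * ((W.length : ℝ) / (8 * Q)) ^ t ≤
        2 ^ L * (B * t) ^ t * (W.length : ℝ) ^ (t / 2) := by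
      calc ((bad h).card : ℝ) * ((W.length : ℝ) / (8 * Q)) ^ t
          = ∑ σ ∈ bad h, ((W.length : ℝ) / (8 * Q)) ^ t := by
            rw [Finset.sum_const, nsmul_eq_mul]
        _ ≤ ∑ σ ∈ bad h, (∑ i : {u // u ∈ W.toFinset}, (Y (row p m σ i.1) - μ)) ^ t :=
            Finset.sum_le_sum hlow
        _ ≤ ∑ σ ∈ BL L, (∑ i : {u // u ∈ W.toFinset}, (Y (row p m σ i.1) - μ)) ^ t :=
            Finset.sum_le_sum_of_subset_of_nonneg (Finset.filter_subset _ _)
              (fun σ _ _ => hteven.pow_nonneg _)
        _ ≤ _ := by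
            refine hmom.trans (le_of_eq ?_)
            push_cast
            ring
    have hNr : ((16 * Q * B * t : ℕ) : ℝ) ^ 2 ≤ W.length := by exact_mod_cast hN
    have hWpos : (0 : ℝ) < W.length := by
      refine lt_of_lt_of_le ?_ hNr
      have : 0 < 16 * Q * B * t := by positivity
      positivity
    have ht2 : t / 2 = m + K := by omega
    have hBt : (0 : ℝ) < (B : ℝ) * t := by positivity
    have hpow : (2 * ((B : ℝ) * t)) ^ t * (W.length : ℝ) ^ (t / 2) ≤
        ((W.length : ℝ) / (8 * Q)) ^ t := by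
      rw [div_pow, le_div_iff₀ (pow_pos hQ' _), ht2]
      have e1 : (W.length : ℝ) ^ t = (W.length : ℝ) ^ (m + K) * (W.length : ℝ) ^ (m + K) := by
        rw [← pow_add]; congr 1; omega
      have e2 : ((16 * Q * B * t : ℕ) : ℝ) ^ t ≤ (W.length : ℝ) ^ (m + K) := by
        have : ((16 * Q * B * t : ℕ) : ℝ) ^ t = (((16 * Q * B * t : ℕ) : ℝ) ^ 2) ^ (m + K) := by
          rw [← pow_mul]; congr 1
        rw [this]
        exact pow_le_pow_left₀ (by positivity) hNr _
      rw [e1]
      calc (2 * ((B : ℝ) * t)) ^ t * (W.length : ℝ) ^ (m + K) * (8 * Q) ^ t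
          = ((16 * Q * B * t : ℕ) : ℝ) ^ t * (W.length : ℝ) ^ (m + K) := by
            rw [mul_right_comm, ← mul_pow]; push_cast; ring
        _ ≤ _ := mul_le_mul_of_nonneg_right e2 (by positivity)
    have hfin : ((bad h).card : ℝ) * 4 ^ (m + K) ≤ 2 ^ L := by
      have h1 : ((bad h).card : ℝ) * ((2 * ((B : ℝ) * t)) ^ t * (W.length : ℝ) ^ (t / 2)) ≤
          2 ^ L * (B * t) ^ t * (W.length : ℝ) ^ (t / 2) :=
        (mul_le_mul_of_nonneg_left hpow (Nat.cast_nonneg _)).trans hmark
      have hpos : (0 : ℝ) < (B * t) ^ t * (W.length : ℝ) ^ (t / 2) := by positivity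
      have e4 : (2 : ℝ) ^ t = 4 ^ (m + K) := by
        rw [ht, pow_mul]; norm_num
      rw [mul_pow, e4] at h1
      have h2 : (((bad h).card : ℝ) * 4 ^ (m + K)) * ((B * t) ^ t * (W.length : ℝ) ^ (t / 2)) ≤
          2 ^ L * ((B * t) ^ t * (W.length : ℝ) ^ (t / 2)) := by
        calc _ = ((bad h).card : ℝ) * (4 ^ (m + K) * ((B : ℝ) * t) ^ t *
              (W.length : ℝ) ^ (t / 2)) := by ring
          _ ≤ _ := h1
          _ = _ := by ring
      exact le_of_mul_le_mul_right h2 hpos
    exact_mod_cast hfin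
  set HL : Finset (List (Option Bool)) :=
    (univ : Finset (Fin m → Option Bool)).image (fun f => List.ofFn f) with hHL
  have hHLlen : ∀ h ∈ HL, h.length = m := by
    intro h hh
    obtain ⟨f, _, rfl⟩ := Finset.mem_image.mp hh
    simp
  have hHLmem : ∀ h : List (Option Bool), h.length = m → h ∈ HL := by
    intro h hh
    refine Finset.mem_image.mpr ⟨fun i => h.get (i.cast hh.symm), Finset.mem_univ _, ?_⟩
    subst hh
    simp
  have hHLcard : HL.card ≤ 4 ^ m := by
    refine Finset.card_image_le.trans ?_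
    rw [Finset.card_univ, Fintype.card_fun, Fintype.card_fin]
    exact Nat.pow_le_pow_left (by simp) m
  have hsub : {σ : List Bool | σ.length = L ∧ ¬ ∀ h : List (Option Bool), h.length = m →
      8 * Q * (W.map (fun u => φ (made h) (right h (row p m σ u)))).sum ≤
        (8 * Q * c + 1) * W.length} ⊆ ((HL.biUnion bad : Finset (List Bool)) : Set (List Bool)) := by
    rintro σ ⟨h1, h2⟩
    push Not at h2
    obtain ⟨h, hh, h3⟩ := h2
    rw [Finset.mem_coe, Finset.mem_biUnion]
    refine ⟨h, hHLmem h hh, Finset.mem_filter.mpr ⟨mem_BL.mpr h1, ?_⟩⟩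
    push Not
    exact h3
  have hcard := Set.ncard_le_ncard hsub (Finset.finite_toSet _)
  rw [Set.ncard_coe_finset] at hcard
  have hU : (HL.biUnion bad).card * 4 ^ (m + K) ≤ 4 ^ m * 2 ^ L := by
    calc (HL.biUnion bad).card * 4 ^ (m + K) ≤ (∑ h ∈ HL, (bad h).card) * 4 ^ (m + K) :=
          Nat.mul_le_mul_right _ Finset.card_biUnion_le
      _ = ∑ h ∈ HL, (bad h).card * 4 ^ (m + K) := Finset.sum_mul _ _ _
      _ ≤ ∑ h ∈ HL, 2 ^ L := Finset.sum_le_sum fun h hh => main h (hHLlen h hh)
      _ = HL.card * 2 ^ L := by rw [Finset.sum_const, smul_eq_mul]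
      _ ≤ _ := Nat.mul_le_mul_right _ hHLcard
  have hU2 : (HL.biUnion bad).card * 4 ^ K ≤ 2 ^ L := by
    have : 4 ^ m * ((HL.biUnion bad).card * 4 ^ K) ≤ 4 ^ m * 2 ^ L := by
      calc _ = (HL.biUnion bad).card * 4 ^ (m + K) := by rw [pow_add]; ring
        _ ≤ _ := hU
    exact Nat.le_of_mul_le_mul_left this (by positivity)
  have hK4 : K ≤ 4 ^ K := (Nat.lt_pow_self (by norm_num)).le
  calc _ ≤ K * (HL.biUnion bad).card := Nat.mul_le_mul_left _ hcard
    _ ≤ 4 ^ K * (HL.biUnion bad).card := Nat.mul_le_mul_right _ hK4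
    _ = (HL.biUnion bad).card * 4 ^ K := mul_comm _ _
    _ ≤ _ := hU2

end Pool.Agent.W376.RL
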