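import Pool.Agent.W901.RL.Stm2
import Pool.Agent.W376.RL.E1G

/-!
# Coin tossing has large deviations with probability 1/poly (part ANTI of the project RL of
helper901)
-/

set_option autoImplicit false

namespace Pool.Agent.W376.RL

open Finset Pool.Agent.NPC Pool.Agent.H579R2.Spt Pool.Agent.H251R5.PQ Pool.Agent.W901.AT
  Pool.Agent.W901.RL

/-- The sum of `F` over the end points of all walks with `m` steps `±1`. -/
noncomputable def D : ℕ → (ℤ → ℝ) → ℝ
  | 0, F => F 0
  | (m + 1), F => D m (fun x => F (x + 1)) + D m (fun x => F (x - 1))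

theorem D_mono (m : ℕ) : ∀ (F G : ℤ → ℝ), (∀ x, F x ≤ G x) → D m F ≤ D m G := by
  induction m with
  | zero => intro F G h; exact h 0
  | succ m ih =>
    intro F G h
    exact add_le_add (ih _ _ fun x => h _) (ih _ _ fun x => h _)

theorem D_mul (m : ℕ) (a : ℝ) : ∀ (F : ℤ → ℝ), D m (fun x => a * F x) = a * D m F := by
  induction m with
  | zero => intro F; rfl
  | succ m ih =>
    intro F
    simp only [D]
    rw [ih (fun x => F (x + 1)), ih (fun x => F (x - 1))]
    ring

theorem D_add (m : ℕ) : ∀ (F G : ℤ → ℝ), D m (fun x => F x + G x) = D m F + D m G := by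
  induction m with
  | zero => intro F G; rfl
  | succ m ih =>
    intro F G
    simp only [D]
    rw [ih (fun x => F (x + 1)) (fun x => G (x + 1)), ih (fun x => F (x - 1)) (fun x => G (x - 1))]
    ring

theorem D_const (m : ℕ) (a : ℝ) : D m (fun _ => a) = 2 ^ m * a := by
  induction m with
  | zero => simp [D]
  | succ m ih => simp only [D]; rw [ih]; ring

theorem D_neg (m : ℕ) : ∀ (F : ℤ → ℝ), D m (fun x => F (-x)) = D m F := by
  induction m with
  | zero => intro F; simp [D]
  | succ m ih =>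
    intro F
    simp only [D]
    have h1 := ih (fun y => F (y - 1))
    have h2 := ih (fun y => F (y + 1))
    have e1 : (fun x : ℤ => F (-(x + 1))) = (fun x => F (-x - 1)) := by
      funext x; congr 1; ring
    have e2 : (fun x : ℤ => F (-(x - 1))) = (fun x => F (-x + 1)) := by
      funext x; congr 1; ring
    rw [e1, e2, h1, h2]
    ring

theorem D_split (m₁ m₂ : ℕ) : ∀ (F : ℤ → ℝ),
    D (m₁ + m₂) F = D m₁ (fun x => D m₂ (fun y => F (x + y))) := by
  induction m₁ with
  | zero => intro F; simp [D]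
  | succ m ih =>
    intro F
    rw [show m + 1 + m₂ = (m + m₂) + 1 by ring]
    simp only [D]
    rw [ih, ih]
    congr 2
    · funext x; congr 1; funext y; congr 1; ring
    · funext x; congr 1; funext y; congr 1; ring

theorem D_two (m : ℕ) : ∀ x : ℝ, D m (fun y => (x + (y : ℝ)) ^ 2) = 2 ^ m * (x ^ 2 + m) := by
  induction m with
  | zero => intro x; simp [D]
  | succ m ih =>
    intro x
    simp only [D]
    have e1 : (fun y : ℤ => (x + ((y + 1 : ℤ) : ℝ)) ^ 2) = (fun y : ℤ => ((x + 1) + (y : ℝ)) ^ 2) := by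
      funext y; push_cast; ring
    have e2 : (fun y : ℤ => (x + ((y - 1 : ℤ) : ℝ)) ^ 2) = (fun y : ℤ => ((x - 1) + (y : ℝ)) ^ 2) := by
      funext y; push_cast; ring
    rw [e1, e2, ih, ih]
    push_cast
    ring

theorem D_four (m : ℕ) : ∀ x : ℝ, D m (fun y => (x + (y : ℝ)) ^ 4) =
    2 ^ m * (x ^ 4 + 6 * m * x ^ 2 + 3 * m ^ 2 - 2 * m) := by
  induction m with
  | zero => intro x; simp [D]
  | succ m ih =>
    intro x
    simp only [D]
    have e1 : (fun y : ℤ => (x + ((y + 1 : ℤ) : ℝ)) ^ 4) = (fun y : ℤ => ((x + 1) + (y : ℝ)) ^ 4) := by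
      funext y; push_cast; ring
    have e2 : (fun y : ℤ => (x + ((y - 1 : ℤ) : ℝ)) ^ 4) = (fun y : ℤ => ((x - 1) + (y : ℝ)) ^ 4) := by
      funext y; push_cast; ring
    rw [e1, e2, ih, ih]
    push_cast
    ring

/-- number of walks with end point at least `t` -/
noncomputable def P (m : ℕ) (t : ℝ) : ℝ := D m (fun x => if t ≤ (x : ℝ) then 1 else 0)

theorem P_nonneg (m : ℕ) (t : ℝ) : 0 ≤ P m t := by
  have := D_mono m (fun _ => 0) (fun x => if t ≤ (x : ℝ) then 1 else 0)
    (fun x => by split_ifs <;> norm_num)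
  rwa [D_const, mul_zero] at this

theorem P_anti (m : ℕ) {t t' : ℝ} (h : t ≤ t') : P m t' ≤ P m t := by
  apply D_mono
  intro x
  split_ifs with h1 h2
  · exact le_rfl
  · exact absurd (h.trans h1) h2
  · norm_num
  · exact le_rfl

theorem P_mul (m₁ m₂ : ℕ) (t₁ t₂ : ℝ) : P m₁ t₁ * P m₂ t₂ ≤ P (m₁ + m₂) (t₁ + t₂) := by
  have h1 : D m₁ (fun x => (P m₂ t₂) * (if t₁ ≤ (x : ℝ) then 1 else 0)) ≤
      D m₁ (fun x => D m₂ (fun y => if t₁ + t₂ ≤ ((x + y : ℤ) : ℝ) then 1 else 0)) := by
    apply D_mono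
    intro x
    split_ifs with hx
    · rw [mul_one]
      apply D_mono
      intro y
      split_ifs with h1 h2
      · exact le_rfl
      · exact absurd (by push_cast; linarith) h2
      · norm_num
      · exact le_rfl
    · rw [mul_zero]
      have := D_mono m₂ (fun _ => 0) (fun y => if t₁ + t₂ ≤ ((x + y : ℤ) : ℝ) then 1 else 0)
        (fun x => by split_ifs <;> norm_num)
      rwa [D_const, mul_zero] at this
  rw [D_mul, mul_comm] at h1
  unfold P at *
  rw [D_split]
  exact h1

theorem P_zero (m : ℕ) : 2 ^ m ≤ 2 * P m 0 := by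
  have h1 := D_mono m (fun _ => 1) (fun x => (if (0 : ℝ) ≤ (x : ℝ) then 1 else 0) +
    (if (0 : ℝ) ≤ ((-x : ℤ) : ℝ) then (1 : ℝ) else 0))
    (fun x => by
      rcases le_total (0 : ℝ) (x : ℝ) with h | h
      · rw [if_pos h]; split_ifs <;> norm_num
      · rw [if_pos (show (0 : ℝ) ≤ ((-x : ℤ) : ℝ) by push_cast; linarith)]
        split_ifs <;> norm_num)
  have h2 : D m (fun x => if (0 : ℝ) ≤ ((-x : ℤ) : ℝ) then (1 : ℝ) else 0) =
      D m (fun x => if (0 : ℝ) ≤ (x : ℝ) then (1 : ℝ) else 0) :=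
    D_neg m (fun x => if (0 : ℝ) ≤ (x : ℝ) then (1 : ℝ) else 0)
  rw [D_const, D_add, h2, mul_one] at h1
  unfold P
  linarith

theorem P_sqrt (n : ℕ) (hn : 1 ≤ n) : 2 ^ n ≤ 10 * P n (Real.sqrt n / 2) := by
  have hn' : (1 : ℝ) ≤ n := by exact_mod_cast hn
  have hn0 : (0 : ℝ) < n := by linarith
  have key : ∀ x : ℤ, 2 * ((4 * (x : ℝ) ^ 2 - n) / (16 * n)) - ((4 * (x : ℝ) ^ 2 - n) / (16 * n)) ^ 2 ≤
      (if Real.sqrt n / 2 ≤ (x : ℝ) then 1 else 0) +
        (if Real.sqrt n / 2 ≤ ((-x : ℤ) : ℝ) then (1 : ℝ) else 0) := by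
    intro x
    set z := (4 * (x : ℝ) ^ 2 - n) / (16 * n) with hz
    have hz1 : 2 * z - z ^ 2 ≤ 1 := by nlinarith [sq_nonneg (z - 1)]
    by_cases h : (n : ℝ) ≤ 4 * (x : ℝ) ^ 2
    · have h2 : Real.sqrt n / 2 ≤ |(x : ℝ)| := by
        have : Real.sqrt n ≤ |2 * (x : ℝ)| := by
          apply Real.sqrt_le_iff.mpr
          constructor
          · exact abs_nonneg _
          · rw [sq_abs]; nlinarith
        rw [abs_mul, abs_of_pos (by norm_num : (0 : ℝ) < 2)] at this
        linarith
      rcases le_abs.mp h2 with h3 | h3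
      · rw [if_pos h3]
        split_ifs <;> linarith
      · rw [if_pos (show Real.sqrt n / 2 ≤ ((-x : ℤ) : ℝ) by push_cast; linarith)]
        split_ifs <;> linarith
    · have hz0 : z ≤ 0 := by
        apply div_nonpos_of_nonpos_of_nonneg
        · linarith
        · positivity
      have : 2 * z - z ^ 2 ≤ 0 := by nlinarith [sq_nonneg z]
      split_ifs <;> linarith
  have h1 := D_mono n _ _ key
  have h2' : D n (fun x => if Real.sqrt n / 2 ≤ ((-x : ℤ) : ℝ) then (1 : ℝ) else 0) =
      D n (fun x => if Real.sqrt n / 2 ≤ (x : ℝ) then (1 : ℝ) else 0) :=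
    D_neg n (fun x => if Real.sqrt n / 2 ≤ (x : ℝ) then (1 : ℝ) else 0)
  rw [D_add, h2'] at h1
  have h2 : D n (fun x : ℤ => 2 * ((4 * (x : ℝ) ^ 2 - n) / (16 * n)) -
      ((4 * (x : ℝ) ^ 2 - n) / (16 * n)) ^ 2) = 2 ^ n * (55 / 256 + 1 / (8 * n)) := by
    have e : (fun x : ℤ => 2 * ((4 * (x : ℝ) ^ 2 - n) / (16 * n)) -
        ((4 * (x : ℝ) ^ 2 - n) / (16 * n)) ^ 2) =
        (fun x : ℤ => (-(1 / (16 * (n : ℝ) ^ 2)) * ((0 + (x : ℝ)) ^ 4) +
          (1 / (2 * n) + 1 / (32 * n)) * ((0 + (x : ℝ)) ^ 2)) + (-(1 / 8) - 1 / 256)) := by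
      funext x
      field_simp
      ring
    rw [e, D_add, D_add, D_mul, D_mul, D_const, D_two, D_four]
    field_simp
    ring
  rw [h2] at h1
  have h3 : (0 : ℝ) < 2 ^ n := by positivity
  have h4 : (2 : ℝ) ^ n * (1 / 5) ≤ 2 ^ n * (55 / 256 + 1 / (8 * n)) := by
    apply mul_le_mul_of_nonneg_left _ h3.le
    have : (0 : ℝ) ≤ 1 / (8 * n) := by positivity
    linarith
  unfold P
  linarith

theorem P_blocks (n K : ℕ) (hn : 1 ≤ n) : (2 : ℝ) ^ (K * n) ≤
    10 ^ K * P (K * n) (K * (Real.sqrt n / 2)) := by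
  induction K with
  | zero =>
    have : P 0 0 = 1 := by simp [P, D]
    simp [this]
  | succ K ih =>
    have h1 := P_mul (K * n) n (K * (Real.sqrt n / 2)) (Real.sqrt n / 2)
    have h2 := P_sqrt n hn
    have e1 : (K + 1) * n = K * n + n := by ring
    have e2 : ((K + 1 : ℕ) : ℝ) * (Real.sqrt n / 2) = K * (Real.sqrt n / 2) + Real.sqrt n / 2 := by
      push_cast; ring
    rw [e1, e2, pow_add]
    calc (2 : ℝ) ^ (K * n) * 2 ^ n ≤ (10 ^ K * P (K * n) (K * (Real.sqrt n / 2))) *
          (10 * P n (Real.sqrt n / 2)) := by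
          apply mul_le_mul ih h2 (by positivity)
          exact mul_nonneg (by positivity) (P_nonneg _ _)
      _ = 10 ^ (K + 1) * (P (K * n) (K * (Real.sqrt n / 2)) * P n (Real.sqrt n / 2)) := by ring
      _ ≤ _ := mul_le_mul_of_nonneg_left h1 (by positivity)

theorem link (w : List Bool) : ∀ F : ℤ → ℝ,
    ∑ r ∈ BL w.length, F (excess (r.map some) w) = D w.length F := by
  induction w with
  | nil => intro F; simp [BL_zero, D, excess]
  | cons b w ih =>
    intro F
    rw [List.length_cons, sumBL_succ]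
    simp only [D]
    rw [← ih (fun x => F (x + 1)), ← ih (fun x => F (x - 1)), ← Finset.sum_add_distrib]
    refine Finset.sum_congr rfl fun r _ => ?_
    have e : ∀ b' : Bool, excess (List.map some (b' :: r)) (b :: w) =
        (if b' = b then 1 else -1) + excess (r.map some) w := by
      intro b'
      simp [excess]
    rw [e, e]
    cases b
    · simp
      rw [add_comm (F (-1 + _)), add_comm (1 : ℤ), add_comm (-1 : ℤ)]
      rfl
    · simp
      rw [add_comm (1 : ℤ), add_comm (-1 : ℤ)]
      rfl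

theorem anti : S_ANTI := by
  intro c hc
  refine ⟨9 + ⌈32 * c ^ 2⌉₊, ?_⟩
  intro m w hm hw
  have hm' : (1 : ℝ) ≤ m := by exact_mod_cast hm
  have hlog : 0 ≤ Real.log m := Real.log_nonneg hm'
  set T : ℝ := min (m : ℝ) (c * Real.sqrt (m * Real.log m)) with hT
  set A := (BL m).filter (fun r => T ≤ |(excess (r.map some) w : ℝ)|) with hA
  have hcard : (A.card : ℝ) = D m (fun x => if T ≤ |(x : ℝ)| then 1 else 0) := by
    have := link w (fun x => if T ≤ |(x : ℝ)| then 1 else 0)
    rw [hw] at this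
    rw [← this, hA, Finset.card_filter]
    push_cast
    rfl
  -- powers
  have hpow : ∀ (a k : ℕ) (x : ℝ), (k : ℝ) ≤ x * Real.log m + a → 0 ≤ x →
      ∀ b : ℕ, x ≤ b → (2 : ℝ) ^ k ≤ ((m : ℝ) + 1) ^ (a + b) := by
    intro a k x hk hx b hb
    have h1 : (k : ℝ) * Real.log 2 ≤ (a + b : ℕ) * Real.log (m + 1) := by
      have hl2 : Real.log 2 ≤ 1 := by
        have := Real.log_two_lt_d9; linarith
      have hl2' : 0 < Real.log 2 := Real.log_pos (by norm_num)
      have hlm : Real.log m ≤ Real.log (m + 1) := Real.log_le_log (by linarith) (by linarith)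
      have hl2m : Real.log 2 ≤ Real.log (m + 1) := Real.log_le_log (by norm_num) (by linarith)
      push_cast
      calc (k : ℝ) * Real.log 2 ≤ (x * Real.log m + a) * Real.log 2 :=
            mul_le_mul_of_nonneg_right hk hl2'.le
        _ = x * Real.log m * Real.log 2 + a * Real.log 2 := by ring
        _ ≤ x * Real.log m * 1 + a * Real.log (m + 1) := by
            apply add_le_add
            · exact mul_le_mul_of_nonneg_left hl2 (mul_nonneg hx hlog)
            · exact mul_le_mul_of_nonneg_left hl2m (Nat.cast_nonneg _)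
        _ ≤ b * Real.log (m + 1) + a * Real.log (m + 1) := by
            rw [mul_one]
            apply add_le_add _ le_rfl
            exact mul_le_mul hb hlm hlog (Nat.cast_nonneg _)
        _ = _ := by ring
    rw [← Real.log_pow, ← Real.log_pow] at h1
    exact (Real.log_le_log_iff (by positivity) (by positivity)).mp h1
  set K : ℕ := ⌈8 * c ^ 2 * Real.log m⌉₊ + 1 with hK
  have hKlow : 8 * c ^ 2 * Real.log m ≤ K := by
    rw [hK]; push_cast
    linarith [Nat.le_ceil (8 * c ^ 2 * Real.log m)]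
  have hKup : (K : ℝ) ≤ 8 * c ^ 2 * Real.log m + 2 := by
    rw [hK]; push_cast
    have := (Nat.ceil_lt_add_one (show 0 ≤ 8 * c ^ 2 * Real.log m by positivity)).le
    linarith
  have hgoal : (2 : ℝ) ^ m ≤ ((m : ℝ) + 1) ^ (9 + ⌈32 * c ^ 2⌉₊) * (A.card : ℝ) := by
    rcases Nat.lt_or_ge m K with hlt | hge
    · -- few steps
      have h1 : (2 : ℝ) ^ m ≤ ((m : ℝ) + 1) ^ (9 + ⌈32 * c ^ 2⌉₊) := by
        apply hpow 9 m (8 * c ^ 2) _ (by positivity)
        · exact (by nlinarith [sq_nonneg c] : (8 : ℝ) * c ^ 2 ≤ 32 * c ^ 2).trans (Nat.le_ceil _)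
        · have : (m : ℝ) ≤ K := by exact_mod_cast hlt.le
          push_cast
          linarith
      have h2 : (1 : ℝ) ≤ A.card := by
        have : w ∈ A := by
          rw [hA, Finset.mem_filter]
          refine ⟨mem_BL.mpr hw, ?_⟩
          have e : ∀ v : List Bool, excess (v.map some) v = v.length := by
            intro v
            induction v with
            | nil => simp [excess]
            | cons b v ih =>
              have : excess (List.map some (b :: v)) (b :: v) =
                  1 + excess (v.map some) v := by simp [excess]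
              rw [this, ih]
              push_cast [List.length_cons]
              ring
          rw [e w, hw]
          have h3 : |(((m : ℕ) : ℤ) : ℝ)| = m := by
            rw [Int.cast_natCast, abs_of_nonneg (Nat.cast_nonneg _)]
          rw [h3]
          exact min_le_left _ _
        exact_mod_cast Finset.card_pos.mpr ⟨w, this⟩
      calc (2 : ℝ) ^ m ≤ ((m : ℝ) + 1) ^ (9 + ⌈32 * c ^ 2⌉₊) * 1 := by rw [mul_one]; exact h1
        _ ≤ _ := mul_le_mul_of_nonneg_left h2 (by positivity)
    · -- many steps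
      have hKpos : 0 < K := by omega
      set n := m / K with hn
      have hn1 : 1 ≤ n := (Nat.one_le_div_iff hKpos).mpr hge
      set r := m % K with hr
      have hmr : m = K * n + r := (Nat.div_add_mod m K).symm
      have hrK : r < K := Nat.mod_lt _ hKpos
      have hnK : (m : ℝ) ≤ 2 * K * n := by
        have h1 : m ≤ 2 * K * n := by nlinarith
        exact_mod_cast h1
      have hb := P_blocks n K hn1
      have hz := P_zero r
      have hmul := P_mul (K * n) r (K * (Real.sqrt n / 2)) 0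
      rw [← hmr, add_zero] at hmul
      have hthr : c * Real.sqrt (m * Real.log m) ≤ K * (Real.sqrt n / 2) := by
        have h1 : c * Real.sqrt (m * Real.log m) = Real.sqrt (c ^ 2 * (m * Real.log m)) := by
          rw [Real.sqrt_mul (sq_nonneg c) ((m : ℝ) * Real.log m), Real.sqrt_sq hc.le]
        have h2 : (K : ℝ) * (Real.sqrt n / 2) = Real.sqrt ((K / 2) ^ 2 * n) := by
          rw [Real.sqrt_mul (sq_nonneg ((K : ℝ) / 2)) (n : ℝ), Real.sqrt_sq (by positivity)]
          ring
        rw [h1, h2]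
        apply Real.sqrt_le_sqrt
        have hK0 : (0 : ℝ) ≤ K := Nat.cast_nonneg _
        calc c ^ 2 * ((m : ℝ) * Real.log m) = (8 * c ^ 2 * Real.log m) * m / 8 := by ring
          _ ≤ (K : ℝ) * (2 * K * n) / 8 := by
              apply div_le_div_of_nonneg_right _ (by norm_num)
              exact mul_le_mul hKlow hnK (by linarith) hK0
          _ = ((K : ℝ) / 2) ^ 2 * n := by ring
      have hA1 : P m (K * (Real.sqrt n / 2)) ≤ A.card := by
        rw [hcard]
        apply D_mono
        intro x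
        split_ifs with h1 h2
        · exact le_rfl
        · exact absurd (((min_le_right _ _).trans hthr).trans (h1.trans (le_abs_self _))) h2
        · norm_num
        · exact le_rfl
      have h2m : (2 : ℝ) ^ m ≤ (10 ^ K * 2) * (A.card : ℝ) := by
        calc (2 : ℝ) ^ m = 2 ^ (K * n) * 2 ^ r := by rw [← pow_add, ← hmr]
          _ ≤ (10 ^ K * P (K * n) (K * (Real.sqrt n / 2))) * (2 * P r 0) := by
              apply mul_le_mul hb hz (by positivity)
              exact mul_nonneg (by positivity) (P_nonneg _ _)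
          _ = (10 ^ K * 2) * (P (K * n) (K * (Real.sqrt n / 2)) * P r 0) := by ring
          _ ≤ (10 ^ K * 2) * (A.card : ℝ) :=
              mul_le_mul_of_nonneg_left (hmul.trans hA1) (by positivity)
      refine h2m.trans (mul_le_mul_of_nonneg_right ?_ (Nat.cast_nonneg _))
      calc (10 : ℝ) ^ K * 2 ≤ 16 ^ K * 2 := by
            apply mul_le_mul_of_nonneg_right _ (by norm_num)
            exact pow_le_pow_left₀ (by norm_num) (by norm_num) _
        _ = 2 ^ (4 * K + 1) := by
            rw [pow_add (2 : ℝ) (4 * K) 1, pow_mul (2 : ℝ) 4 K]; norm_num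
        _ ≤ _ := by
            apply hpow 9 (4 * K + 1) (32 * c ^ 2) _ (by positivity) _ (Nat.le_ceil _)
            push_cast
            linarith
  have : ((2 ^ m : ℕ) : ℝ) ≤ (((m + 1) ^ (9 + ⌈32 * c ^ 2⌉₊) * A.card : ℕ) : ℝ) := by
    push_cast
    exact hgoal
  exact_mod_cast this

end Pool.Agent.W376.RL
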